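import Pool.Agent.Y735.R2.TrB
import Pool.Agent.TH145.MW.Cramer
import Pool.Agent.TH145.MG.Unb
import Pool.Agent.TH145.GH.Acl

/-!
The sequences of bounded height.
-/

set_option autoImplicit false

open FF Pool.Agent.W603.LV Pool.Agent.W603.PV Pool.Agent.W602.RG Pool.Agent.TH145.GH
open Pool.Agent.TH145
open Filter

namespace Pool.Agent.Y735.R2

variable (κ F Ω : Type) [Field κ] [Field F] [Field Ω] [IsAlgClosed κ] [CharZero κ] [Algebra κ F]
  [IsFF κ F]
  [Algebra F Ω]

/-- The classes of the sequences of bounded height. -/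
noncomputable def BH : Subfield (Om Ω) where
  carrier := {z | ∃ (w : ℕ → F) (H : ℤ), (∀ m, hgt κ (w m) ≤ H) ∧
    z = Om.mk fun m => algebraMap F Ω (w m)}
  mul_mem' := by
    rintro _ _ ⟨w, H, hw, rfl⟩ ⟨w', H', hw', rfl⟩
    refine ⟨fun m => w m * w' m, H + H', fun m => (MW.hgt_mul_le _ _).trans
      (add_le_add (hw m) (hw' m)), ?_⟩
    rw [Om.mk_mul]
    congr 1
    funext m
    rw [map_mul]
  one_mem' := ⟨fun _ => 1, 0, fun m => by
    have := MG.hgt_const (k := κ) (L := F) 1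
    rw [map_one] at this
    exact this.le, by
    rw [← Om.mk_one]
    congr 1
    funext m
    rw [map_one]⟩
  add_mem' := by
    rintro _ _ ⟨w, H, hw, rfl⟩ ⟨w', H', hw', rfl⟩
    refine ⟨fun m => w m + w' m, H + H', fun m => (MW.hgt_add_le _ _).trans
      (add_le_add (hw m) (hw' m)), ?_⟩
    rw [Om.mk_add]
    congr 1
    funext m
    rw [map_add]
  zero_mem' := ⟨fun _ => 0, 0, fun m => by
    have := MG.hgt_const (k := κ) (L := F) 0
    rw [map_zero] at this
    exact this.le, by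
    rw [← Om.mk_zero]
    congr 1
    funext m
    rw [map_zero]⟩
  neg_mem' := by
    rintro _ ⟨w, H, hw, rfl⟩
    refine ⟨fun m => -w m, H, fun m => by rw [MW.hgt_neg]; exact hw m, ?_⟩
    change Om.mk (fun m => - algebraMap F Ω (w m)) = _
    congr 1
    funext m
    rw [map_neg]
  inv_mem' := by
    rintro _ ⟨w, H, hw, rfl⟩
    refine ⟨fun m => (w m)⁻¹, H, fun m => by rw [hgt_inv]; exact hw m, ?_⟩
    change Om.mk (fun m => (algebraMap F Ω (w m))⁻¹) = _
    congr 1
    funext m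
    rw [map_inv₀]

variable {κ F Ω}

theorem mem_BH {w : ℕ → F} {H : ℤ} (h : ∀ m, hgt κ (w m) ≤ H) :
    Om.mk (fun m => algebraMap F Ω (w m)) ∈ BH κ F Ω := ⟨w, H, h, rfl⟩

theorem cst_mem_BH (a : F) : cst Ω (algebraMap F Ω a) ∈ BH κ F Ω :=
  mem_BH (w := fun _ => a) (H := hgt κ a) fun _ => le_rfl

/-- An algebraic equation. -/
theorem alg_BH {z : ℕ → Ω} (h : IsIntegral (BH κ F Ω) (Om.mk z)) :
    ∃ (N : ℕ) (w : ℕ → ℕ → F) (H : ℤ), (∀ i ∈ Finset.range N, ∀ m, hgt κ (w i m) ≤ H) ∧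
      ∀ᶠ m in (hyperfilter ℕ : Filter ℕ),
        z m ^ N + ∑ i ∈ Finset.range N, algebraMap F Ω (w i m) * z m ^ i = 0 := by
  classical
  obtain ⟨p, hp⟩ : ∃ p, p = minpoly (BH κ F Ω) (Om.mk z) := ⟨_, rfl⟩
  have hpm : p.Monic := by rw [hp]; exact minpoly.monic h
  have hp0 : Polynomial.aeval (Om.mk z) p = 0 := by rw [hp]; exact minpoly.aeval _ _
  obtain ⟨N, hN⟩ : ∃ N, N = p.natDegree := ⟨_, rfl⟩
  have hc : ∀ i, ∃ (w : ℕ → F) (H : ℤ), (∀ m, hgt κ (w m) ≤ H) ∧
      (p.coeff i : Om Ω) = Om.mk fun m => algebraMap F Ω (w m) := fun i => (p.coeff i).2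
  choose w H hH hw using hc
  refine ⟨N, w, ∑ i ∈ Finset.range N, H i, fun i hi m => (hH i m).trans ?_, ?_⟩
  · exact Finset.single_le_sum (f := H) (fun j _ => (hgt_nonneg (w j 0)).trans (hH j 0)) hi
  · rw [hpm.as_sum, ← hN, map_add, map_pow, Polynomial.aeval_X, map_sum] at hp0
    have h1 : ∀ i, Polynomial.aeval (Om.mk z) (Polynomial.C (p.coeff i) * Polynomial.X ^ i) =
        MF.mkHom Ω (fun m => algebraMap F Ω (w i m) * z m ^ i) := by
      intro i
      rw [map_mul, map_pow, Polynomial.aeval_X, Polynomial.aeval_C]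
      have h2 : algebraMap (BH κ F Ω) (Om Ω) (p.coeff i) =
          MF.mkHom Ω (fun m => algebraMap F Ω (w i m)) := hw i
      have h3 : Om.mk z = MF.mkHom Ω z := rfl
      rw [h2, h3, ← map_pow, ← map_mul]
      rfl
    rw [Finset.sum_congr rfl fun i _ => h1 i, ← map_sum] at hp0
    have h4 : Om.mk z ^ N = MF.mkHom Ω (fun m => z m ^ N) := by
      have h3 : Om.mk z = MF.mkHom Ω z := rfl
      rw [h3, ← map_pow]
      rfl
    rw [h4, ← map_add] at hp0
    have h5 := Om.mk_eq.1 (hp0.trans (map_zero (MF.mkHom Ω)).symm)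
    filter_upwards [h5] with m hm
    rw [Pi.add_apply, Finset.sum_apply, Pi.zero_apply] at hm
    exact hm

/-- The height of a root. -/
theorem root_hgt {L : Type} [Field L] [Algebra κ L] [IsFF κ L] {N : ℕ} {c : ℕ → L} {w : L}
    (h : w ^ N + ∑ i ∈ Finset.range N, c i * w ^ i = 0) :
    hgt κ w ≤ ∑ i ∈ Finset.range N, hgt κ (c i) := by
  classical
  have hN : N ≠ 0 := by
    rintro rfl
    simp at h
  have hfin : ∀ i, {P : Place κ L | max (-P.ord (c i)) 0 ≠ 0}.Finite := by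
    intro i
    refine (finite_support (k := κ) (c i)).subset fun P hP h0 => hP ?_
    have h0' : P.ord (c i) = 0 := h0
    rw [h0']
    simp
  obtain ⟨b, hb⟩ : ∃ b : Place κ L → ℤ, ∀ P, b P = ∑ i ∈ Finset.range N,
    max (-P.ord (c i)) 0 := ⟨_, fun _ => rfl⟩
  have hbf : {P | b P ≠ 0}.Finite := by
    refine ((Finset.range N).finite_toSet.biUnion fun i _ => hfin i).subset fun P hP => ?_
    by_contra hcon
    apply hP
    rw [hb]
    refine Finset.sum_eq_zero fun i hi => ?_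
    by_contra h1
    exact hcon (Set.mem_biUnion (Finset.mem_coe.2 hi) h1)
  have h1 : ∑ᶠ P, b P = ∑ i ∈ Finset.range N, hgt κ (c i) := by
    have h2 : b = fun P => ∑ i ∈ Finset.range N, max (-P.ord (c i)) 0 := funext hb
    rw [h2, finsum_sum_comm _ _ fun i _ => hfin i]
    rfl
  rw [← h1]
  refine Pool.Agent.Y735.R.hgt_le_of_ge (fun P => by
    rw [hb]; exact Finset.sum_nonneg fun i _ => le_max_right _ _) hbf fun P => ?_
  have hb0 : 0 ≤ b P := by rw [hb]; exact Finset.sum_nonneg fun i _ => le_max_right _ _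
  by_contra hcon
  have hw0 : w ≠ 0 := fun h0 => hcon (Or.inl h0)
  have hlt : P.ord w < -b P := by
    by_contra h2
    exact hcon (Or.inr (not_lt.1 h2))
  have h2 : w ^ N = -∑ i ∈ Finset.range N, c i * w ^ i := by linear_combination h
  have h3 : Ge P (-b P + (N - 1) * P.ord w) (w ^ N) := by
    rw [h2]
    refine Ge.neg (Ge.sum _ _ fun i hi => ?_)
    have h4 : Ge P (-b P) (c i) := by
      by_cases hc : c i = 0
      · exact Or.inl hc
      · refine Or.inr ?_
        have h5 : max (-P.ord (c i)) 0 ≤ b P := by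
          rw [hb]
          exact Finset.single_le_sum (f := fun i => max (-P.ord (c i)) 0)
            (fun j _ => le_max_right _ _) hi
        have h6 := le_max_left (-P.ord (c i)) 0
        omega
    have h5 : Ge P (i * P.ord w) (w ^ i) := Or.inr (by rw [P.ord_pow])
    refine (h4.mul h5).mono ?_
    have h6 : (i : ℤ) ≤ N - 1 := by
      have := Finset.mem_range.1 hi
      omega
    nlinarith
  rcases h3 with h3 | h3
  · exact pow_ne_zero _ hw0 h3
  · rw [P.ord_pow] at h3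
    linarith

/-- The algebraic closure of the field of the sequences of bounded height. -/
theorem exists_KK (κ F Ω : Type) [Field κ] [Field F] [Field Ω] [IsAlgClosed κ] [CharZero κ]
    [Algebra κ F] [IsFF κ F] [Algebra F Ω] [IsAlgClosed (Om Ω)] :
    ∃ 𝕂 : Subfield (Om Ω), IsAlgClosed 𝕂 ∧ BH κ F Ω ≤ 𝕂 ∧
      ∀ z ∈ 𝕂, IsIntegral (BH κ F Ω) z := by
  refine ⟨acl (BH κ F Ω : Set (Om Ω)), acl_isAlgClosed _, subset_acl _, fun z hz => ?_⟩
  have h1 := mem_acl.1 hz
  have h2 : ∀ S T : Subfield (Om Ω), S = T → IsAlgebraic S z → IsAlgebraic T z := by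
    rintro S _ rfl
    exact id
  exact (h2 _ _ (Subfield.closure_eq _) h1).isIntegral

theorem mk_sum_prod {Ω : Type} [Field Ω] {s D : ℕ} (Th : Fin s → ℕ → Ω)
    (X : Fin s → Fin D → ℕ → Ω) (T : ℕ → Ω) (h : ∀ M, T M = ∑ e, Th e M * ∏ i, X e i M) :
    ∑ e, Om.mk (Th e) * ∏ i, Om.mk (X e i) = Om.mk T := by
  have h1 : T = ∑ e, Th e * ∏ i, X e i := by
    funext M
    rw [h, Finset.sum_apply]
    refine Finset.sum_congr rfl fun e _ => ?_
    rw [Pi.mul_apply, Finset.prod_apply]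
  have h2 : Om.mk T = MF.mkHom Ω T := rfl
  rw [h2, h1, map_sum]
  refine Finset.sum_congr rfl fun e _ => ?_
  rw [map_mul, map_prod]
  rfl

/-- Transfer of an equation. -/
theorem eq_mk {R Ω : Type} [Field R] [Field Ω] (σ : R →+* Ω) {n : ℕ}
    (x : ℕ → Fin (n + 1) → Ω) (f : MvPolynomial (Fin (n + 1)) R)
    (h : ∀ M, MvPolynomial.eval₂ σ (x M) f = 0) :
    MvPolynomial.eval₂ ((cst Ω).comp σ) (fun j => Om.mk fun M => x M j) f = 0 := by
  rw [← MvPolynomial.eval₂_map, Pool.Agent.TH145.MG.eval_mk]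
  have h1 : (fun M => MvPolynomial.eval (x M) (MvPolynomial.map σ f)) = fun _ => 0 := by
    funext M
    rw [MvPolynomial.eval_map]
    exact h M
  rw [h1]
  rfl

end Pool.Agent.Y735.R2
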