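import Mathlib

/-!
Varieties without lines, and points on lines over algebraically closed subfields.
-/

set_option autoImplicit false

open MvPolynomial

namespace Pool.Agent.Y735.R2

/-- There are no lines on the variety, over any algebraically closed field. -/
def NoLine {k0 F : Type} [Field k0] [Field F] (ψ : k0 →+* F) {n : ℕ} {A : Type}
    (V : Set (MvPolynomial (Fin (n + 1)) k0)) (G : A → MvPolynomial (Fin (n + 1)) F)
    (l0 : Fin (n + 1)) : Prop :=
  ∀ (κ : Type) [Field κ] [IsAlgClosed κ] [CharZero κ] (ρ : F →+* κ) (u u' : Fin (n + 1) → κ),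
    u l0 = 1 → u' l0 = 0 →
    (∀ τ : ℕ, (∀ f ∈ V, eval₂ (ρ.comp ψ) (fun j => u j + τ * u' j) f = 0) ∧
      ∀ a, eval₂ ρ (fun j => u j + τ * u' j) (G a) = 0) → u' = 0

theorem NoLine.comp {k0 F F' : Type} [Field k0] [Field F] [Field F'] {ψ : k0 →+* F} {n : ℕ}
    {A : Type} {V : Set (MvPolynomial (Fin (n + 1)) k0)} {G : A → MvPolynomial (Fin (n + 1)) F}
    {l0 : Fin (n + 1)} (h : NoLine ψ V G l0) (φ : F →+* F') :
    NoLine (φ.comp ψ) V (fun a => map φ (G a)) l0 := by
  intro κ _ _ _ ρ u u' hu hu' H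
  refine h κ (ρ.comp φ) u u' hu hu' fun τ => ⟨fun f hf => (H τ).1 f hf, fun a => ?_⟩
  have h1 := (H τ).2 a
  rwa [eval₂_map] at h1

theorem transc {κ Ω : Type} [Field κ] [Field Ω] [IsAlgClosed κ] [Algebra κ Ω] {t : Ω}
    (ht : t ∉ Set.range (algebraMap κ Ω)) {P : Polynomial κ} (hP : Polynomial.aeval t P = 0) :
    P = 0 := by
  by_contra h0
  apply ht
  have h1 : IsAlgebraic κ t := ⟨P, h0, hP⟩
  exact minpoly.mem_range_of_degree_eq_one κ t
    (IsAlgClosed.degree_eq_one_of_irreducible κ (minpoly.irreducible h1.isIntegral))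

theorem line_zero {R κ Ω : Type} [Field R] [Field κ] [Field Ω] [IsAlgClosed κ] [Algebra κ Ω]
    (σ : R →+* κ) {n : ℕ} {x : Fin (n + 1) → Ω} {u u' : Fin (n + 1) → κ} {t : Ω}
    (ht : t ∉ Set.range (algebraMap κ Ω))
    (hx : ∀ j, x j = algebraMap κ Ω (u j) + t * algebraMap κ Ω (u' j))
    (f : MvPolynomial (Fin (n + 1)) R) (hf : eval₂ ((algebraMap κ Ω).comp σ) x f = 0) (τ : κ) :
    eval₂ σ (fun j => u j + τ * u' j) f = 0 := by
  obtain ⟨P, hP⟩ : ∃ P : Polynomial κ, P = eval₂ (Polynomial.C.comp σ)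
    (fun j => Polynomial.C (u j) + Polynomial.X * Polynomial.C (u' j)) f := ⟨_, rfl⟩
  have h1 : Polynomial.aeval t P = 0 := by
    rw [← hf, hP]
    have h2 := hom_eval₂ f (Polynomial.C.comp σ)
      ((Polynomial.aeval t : Polynomial κ →ₐ[κ] Ω) : Polynomial κ →+* Ω)
      (fun j => Polynomial.C (u j) + Polynomial.X * Polynomial.C (u' j))
    have h3 : ((Polynomial.aeval t : Polynomial κ →ₐ[κ] Ω) : Polynomial κ →+* Ω).comp
        (Polynomial.C.comp σ) = (algebraMap κ Ω).comp σ := by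
      ext r
      simp
    have h4 : (fun j => ((Polynomial.aeval t : Polynomial κ →ₐ[κ] Ω) : Polynomial κ →+* Ω)
        (Polynomial.C (u j) + Polynomial.X * Polynomial.C (u' j))) = x := by
      funext j
      rw [hx]
      simp only [map_add, map_mul, Polynomial.aeval_C, Polynomial.aeval_X, RingHom.coe_coe, hx]
    rw [h3] at h2
    refine h2.trans ?_
    rw [← h4]
  have h2 := transc ht h1
  have h3 : P.eval τ = eval₂ σ (fun j => u j + τ * u' j) f := by
    rw [hP]
    have h2 := hom_eval₂ f (Polynomial.C.comp σ) (Polynomial.evalRingHom τ)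
      (fun j => Polynomial.C (u j) + Polynomial.X * Polynomial.C (u' j))
    have h3 : (Polynomial.evalRingHom τ).comp (Polynomial.C.comp σ) = σ := by
      ext r
      simp
    rw [h3] at h2
    refine h2.trans ?_
    congr 1
    funext j
    simp only [map_add, map_mul, Polynomial.coe_evalRingHom, Polynomial.eval_C,
      Polynomial.eval_X]
  rw [← h3, h2, Polynomial.eval_zero]

/-- **Points on lines over an algebraically closed subfield are constant.** -/
theorem const_pt {k0 F κ Ω : Type} [Field k0] [Field F] [Field κ] [Field Ω] [IsAlgClosed κ]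
    [CharZero κ] [Algebra κ Ω] {ψ : k0 →+* F} {n : ℕ} {A : Type}
    {V : Set (MvPolynomial (Fin (n + 1)) k0)} {G : A → MvPolynomial (Fin (n + 1)) F}
    {l0 : Fin (n + 1)} (hNL : NoLine ψ V G l0) (ρ : F →+* κ) {x : Fin (n + 1) → Ω}
    (hxV : ∀ f ∈ V, eval₂ ((algebraMap κ Ω).comp (ρ.comp ψ)) x f = 0)
    (hxG : ∀ a, eval₂ ((algebraMap κ Ω).comp ρ) x (G a) = 0) {u u' : Fin (n + 1) → κ} {t : Ω}
    (hu : u l0 = 1) (hu' : u' l0 = 0)
    (hx : ∀ j, x j = algebraMap κ Ω (u j) + t * algebraMap κ Ω (u' j)) (j : Fin (n + 1)) :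
    x j ∈ Set.range (algebraMap κ Ω) := by
  by_cases ht : t ∈ Set.range (algebraMap κ Ω)
  · obtain ⟨s, rfl⟩ := ht
    exact ⟨u j + s * u' j, by rw [hx, map_add, map_mul]⟩
  · have h1 := hNL κ ρ u u' hu hu' fun τ => ⟨fun f hf => line_zero _ ht hx f (hxV f hf) τ,
      fun a => line_zero _ ht hx (G a) (hxG a) τ⟩
    exact ⟨u j, by rw [hx, h1]; simp⟩

end Pool.Agent.Y735.R2
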