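import Mathlib

/-!
Sums of powers of points with coefficients in an algebraically closed subfield.
-/

set_option autoImplicit false

namespace Pool.Agent.Y735.R2

/-- Specializations to an algebraically closed field. -/
theorem exists_spec {k Ω : Type} [Field k] [IsAlgClosed k] [Field Ω] [Algebra k Ω] (S : Set Ω)
    (hS : S.Finite) : Nonempty (Algebra.adjoin k S →ₐ[k] k) := by
  classical
  have hft : Algebra.FiniteType k (Algebra.adjoin k S) :=
    (Subalgebra.fg_iff_finiteType _).1 ⟨hS.toFinset, by rw [Set.Finite.coe_toFinset]⟩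
  obtain ⟨M, hM⟩ := Ideal.exists_maximal (Algebra.adjoin k S)
  let _ : Field (Algebra.adjoin k S ⧸ M) := Ideal.Quotient.field M
  have hft' : Algebra.FiniteType k (Algebra.adjoin k S ⧸ M) :=
    Algebra.FiniteType.of_surjective (Ideal.Quotient.mkₐ k M) (Ideal.Quotient.mkₐ_surjective k M)
  have hfin : Module.Finite k (Algebra.adjoin k S ⧸ M) :=
    finite_of_finite_type_of_isJacobsonRing k (Algebra.adjoin k S ⧸ M)
  have hbij : Function.Bijective (algebraMap k (Algebra.adjoin k S ⧸ M)) :=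
    IsAlgClosed.algebraMap_bijective_of_isIntegral
  let e : k ≃ₐ[k] (Algebra.adjoin k S ⧸ M) := AlgEquiv.ofBijective (Algebra.ofId k _) hbij
  exact ⟨(e.symm : (Algebra.adjoin k S ⧸ M) →ₐ[k] k).comp (Ideal.Quotient.mkₐ k M)⟩

/-- Multilinearity. -/
theorem sum_prod_forms {Ω ι : Type} [Field Ω] [Fintype ι] {n D : ℕ} (x : ι → Fin (n + 1) → Ω)
    (Θ : ι → Ω) (h : Fin D → Fin (n + 1) → Ω) :
    ∑ e, Θ e * ∏ k, ∑ j, h k j * x e j =
      ∑ f : Fin D → Fin (n + 1), (∏ k, h k (f k)) * ∑ e, Θ e * ∏ k, x e (f k) := by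
  classical
  simp only [Finset.mul_sum]
  rw [Finset.sum_comm]
  refine Finset.sum_congr rfl fun e _ => ?_
  rw [Finset.prod_univ_sum, Finset.mul_sum, Fintype.piFinset_univ]
  refine Finset.sum_congr rfl fun f _ => ?_
  rw [Finset.prod_mul_distrib]
  ring

/-- A linear form that separates. -/
theorem exists_form {Ω : Type} [Field Ω] {n : ℕ} {W : Submodule Ω (Fin (n + 1) → Ω)}
    {p : Fin (n + 1) → Ω} (hp : p ∉ W) : ∃ h : Fin (n + 1) → Ω, ∑ j, h j * p j ≠ 0 ∧
      ∀ w ∈ W, ∑ j, h j * w j = 0 := by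
  classical
  obtain ⟨φ, hφp, hφ⟩ := Submodule.exists_le_ker_of_notMem hp
  have hφe : ∀ z : Fin (n + 1) → Ω, ∑ j, φ (Pi.single j 1) * z j = φ z := by
    intro z
    have h1 : z = ∑ j, z j • (Pi.single j 1 : Fin (n + 1) → Ω) := by
      funext i
      rw [Finset.sum_apply, Finset.sum_eq_single i]
      · simp
      · intro j _ hij
        rw [Pi.smul_apply, Pi.single_eq_of_ne hij.symm, smul_zero]
      · intro h; exact absurd (Finset.mem_univ i) h
    conv_rhs => rw [h1]
    rw [map_sum]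
    exact Finset.sum_congr rfl fun j _ => by rw [map_smul, smul_eq_mul, mul_comm]
  exact ⟨fun j => φ (Pi.single j 1), by rw [hφe]; exact hφp, fun w hw => by
    rw [hφe]; exact hφ hw⟩

/-- **Sums of powers.** -/
theorem dec {k Ω : Type} [Field k] [IsAlgClosed k] [Field Ω] [Algebra k Ω] {n s D : ℕ}
    (hsD : s ≤ D) (x : Fin s → Fin (n + 1) → Ω) (hx : Function.Injective x) {l0 : Fin (n + 1)}
    (hl : ∀ e, x e l0 = 1) (Θ : Fin s → Ω) (hΘ : ∀ e, Θ e ≠ 0)
    (H : ∀ f : Fin D → Fin (n + 1), ∃ c : k, ∑ e, Θ e * ∏ i, x e (f i) = algebraMap k Ω c)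
    (e0 : Fin s) :
    ∃ (u u' : Fin (n + 1) → k) (t : Ω), u l0 = 1 ∧ u' l0 = 0 ∧
      ∀ j, x e0 j = algebraMap k Ω (u j) + t * algebraMap k Ω (u' j) := by
  classical
  by_contra hcon
  push Not at hcon
  choose c hc using H
  -- the specialization
  have hsep : ∀ e e' : Fin s, e ≠ e' → ∃ j, x e j ≠ x e' j := fun e e' hne =>
    Function.ne_iff.1 fun h => hne (hx h)
  obtain ⟨jj, hjj⟩ : ∃ jj : Fin s → Fin s → Fin (n + 1), ∀ e e', e ≠ e' →
      x e (jj e e') ≠ x e' (jj e e') := by
    refine ⟨fun e e' => if h : e ≠ e' then (hsep e e' h).choose else l0, fun e e' h => ?_⟩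
    dsimp only
    rw [dif_pos h]
    exact (hsep e e' h).choose_spec
  obtain ⟨w, hw⟩ : ∃ w : Fin s → Fin s → Ω, ∀ e e', w e e' =
    (x e (jj e e') - x e' (jj e e'))⁻¹ := ⟨_, fun _ _ => rfl⟩
  obtain ⟨S, hS⟩ : ∃ S : Set Ω, S = (Set.range Θ ∪ Set.range fun p : Fin s × Fin (n + 1) =>
    x p.1 p.2) ∪ Set.range fun p : Fin s × Fin s => w p.1 p.2 := ⟨_, rfl⟩
  have hSf : S.Finite := by
    rw [hS]
    exact ((Set.finite_range _).union (Set.finite_range _)).union (Set.finite_range _)
  obtain ⟨ρ⟩ := exists_spec (k := k) S hSf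
  have hSm : ∀ z ∈ S, z ∈ Algebra.adjoin k S := fun z hz => Algebra.subset_adjoin hz
  have hΘm : ∀ e, Θ e ∈ Algebra.adjoin k S := fun e => hSm _ (by
    rw [hS]; exact Or.inl (Or.inl ⟨e, rfl⟩))
  have hxm : ∀ e j, x e j ∈ Algebra.adjoin k S := fun e j => hSm _ (by
    rw [hS]; exact Or.inl (Or.inr ⟨(e, j), rfl⟩))
  have hwm : ∀ e e', w e e' ∈ Algebra.adjoin k S := fun e e' => hSm _ (by
    rw [hS]; exact Or.inr ⟨(e, e'), rfl⟩)
  obtain ⟨x', hx'⟩ : ∃ x' : Fin s → Fin (n + 1) → k, ∀ e j, x' e j = ρ ⟨x e j, hxm e j⟩ :=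
    ⟨_, fun _ _ => rfl⟩
  obtain ⟨Θ', hΘ'⟩ : ∃ Θ' : Fin s → k, ∀ e, Θ' e = ρ ⟨Θ e, hΘm e⟩ := ⟨_, fun _ => rfl⟩
  have hx'l : ∀ e, x' e l0 = 1 := by
    intro e
    rw [hx', ← map_one ρ]
    congr 1
    exact Subtype.ext (hl e)
  have hx'ne : ∀ e e', e ≠ e' → x' e ≠ x' e' := by
    intro e e' hne h
    have h1 : x e (jj e e') - x e' (jj e e') ≠ 0 := sub_ne_zero.2 (hjj e e' hne)
    have h2 : (⟨x e (jj e e'), hxm _ _⟩ - ⟨x e' (jj e e'), hxm _ _⟩ : Algebra.adjoin k S) *
        ⟨w e e', hwm e e'⟩ = 1 := by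
      apply Subtype.ext
      change (x e (jj e e') - x e' (jj e e')) * w e e' = 1
      rw [hw, mul_inv_cancel₀ h1]
    have h3 := congrArg ρ h2
    rw [map_mul, map_sub, ← hx', ← hx', h, sub_self, zero_mul, map_one] at h3
    exact zero_ne_one h3
  have hc' : ∀ f : Fin D → Fin (n + 1), ∑ e, Θ' e * ∏ i, x' e (f i) = c f := by
    intro f
    have h1 : (∑ e, ⟨Θ e, hΘm e⟩ * ∏ i, ⟨x e (f i), hxm e (f i)⟩ : Algebra.adjoin k S) =
        algebraMap k _ (c f) := by
      apply Subtype.ext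
      refine Eq.trans ?_ (hc f)
      push_cast
      rfl
    have h2 := congrArg ρ h1
    rw [map_sum, AlgHom.commutes] at h2
    rw [show algebraMap k k (c f) = c f from rfl] at h2
    rw [← h2]
    refine Finset.sum_congr rfl fun e _ => ?_
    rw [map_mul, map_prod, hΘ']
    congr 1
    exact Finset.prod_congr rfl fun i _ => hx' e (f i)
  -- the two decompositions
  obtain ⟨X, hX⟩ : ∃ X : Fin s → Fin (n + 1) → Ω, ∀ e j, X e j = algebraMap k Ω (x' e j) :=
    ⟨_, fun _ _ => rfl⟩
  have hXl : ∀ e, X e l0 = 1 := fun e => by rw [hX, hx'l, map_one]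
  have hXne : ∀ e e', e ≠ e' → X e ≠ X e' := by
    intro e e' hne h
    apply hx'ne e e' hne
    funext j
    have h1 := congrFun h j
    rw [hX, hX] at h1
    exact (algebraMap k Ω).injective h1
  have hmain : ∀ h : Fin D → Fin (n + 1) → Ω, ∑ e, Θ e * ∏ i, ∑ j, h i j * x e j =
      ∑ e, algebraMap k Ω (Θ' e) * ∏ i, ∑ j, h i j * X e j := by
    intro h
    rw [sum_prod_forms, sum_prod_forms]
    refine Finset.sum_congr rfl fun f _ => ?_
    rw [hc, ← hc' f, map_sum]
    congr 1
    refine Finset.sum_congr rfl fun e _ => ?_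
    rw [map_mul, map_prod]
    congr 1
    exact Finset.prod_congr rfl fun i _ => (hX e (f i)).symm
  -- the points are not on lines over the subfield
  obtain ⟨p, hp⟩ : ∃ p, p = x e0 := ⟨_, rfl⟩
  have hpl : p l0 = 1 := by rw [hp]; exact hl e0
  have hpX : ∀ a, p ∉ Submodule.span Ω {X a} := by
    intro a h
    obtain ⟨t, ht⟩ := Submodule.mem_span_singleton.1 h
    have h1 : t = 1 := by
      have h2 := congrFun ht l0
      rw [Pi.smul_apply, hXl, hpl, smul_eq_mul, mul_one] at h2
      exact h2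
    obtain ⟨j, hj⟩ := hcon (x' a) 0 0 (hx'l a) rfl
    apply hj
    rw [← hp, ← ht, h1, one_smul, hX]
    simp
  have hpXX : ∀ a b, a ≠ b → p ∉ Submodule.span Ω {X a, X b} := by
    intro a b hab h
    obtain ⟨α, β, hαβ⟩ := Submodule.mem_span_pair.1 h
    have h1 : α + β = 1 := by
      have h2 := congrFun hαβ l0
      rw [Pi.add_apply, Pi.smul_apply, Pi.smul_apply, hXl, hXl, hpl, smul_eq_mul, smul_eq_mul,
        mul_one, mul_one] at h2
      exact h2
    obtain ⟨j, hj⟩ := hcon (x' a) (fun j => x' b j - x' a j) β (hx'l a)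
      (by rw [hx'l, hx'l, sub_self])
    apply hj
    rw [← hp, ← hαβ, Pi.add_apply, Pi.smul_apply, Pi.smul_apply, hX, hX, map_sub, smul_eq_mul,
      smul_eq_mul]
    have h3 : α = 1 - β := by linear_combination h1
    rw [h3]
    ring
  have hpx : ∀ e, e ≠ e0 → p ∉ Submodule.span Ω {x e} := by
    intro e he h
    obtain ⟨t, ht⟩ := Submodule.mem_span_singleton.1 h
    have h1 : t = 1 := by
      have h2 := congrFun ht l0
      rw [Pi.smul_apply, hl, hpl, smul_eq_mul, mul_one] at h2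
      exact h2
    rw [h1, one_smul, hp] at ht
    exact he (hx ht)
  -- the bad indices
  have hbad : ∀ e, e ≠ e0 → ∀ a b, p ∈ Submodule.span Ω {x e, X a} →
      p ∈ Submodule.span Ω {x e, X b} → a = b := by
    intro e he a b ha hb
    by_contra hab
    obtain ⟨α, β, hαβ⟩ := Submodule.mem_span_pair.1 ha
    obtain ⟨α', β', hαβ'⟩ := Submodule.mem_span_pair.1 hb
    have hβ : β ≠ 0 := by
      rintro rfl
      apply hpx e he
      rw [← hαβ, zero_smul, add_zero]
      exact Submodule.smul_mem _ _ (Submodule.mem_span_singleton_self _)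
    have hβ' : β' ≠ 0 := by
      rintro rfl
      apply hpx e he
      rw [← hαβ', zero_smul, add_zero]
      exact Submodule.smul_mem _ _ (Submodule.mem_span_singleton_self _)
    have h1 : α + β = 1 := by
      have h2 := congrFun hαβ l0
      rw [Pi.add_apply, Pi.smul_apply, Pi.smul_apply, hXl, hl, hpl, smul_eq_mul, smul_eq_mul,
        mul_one, mul_one] at h2
      exact h2
    have h1' : α' + β' = 1 := by
      have h2 := congrFun hαβ' l0
      rw [Pi.add_apply, Pi.smul_apply, Pi.smul_apply, hXl, hl, hpl, smul_eq_mul, smul_eq_mul,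
        mul_one, mul_one] at h2
      exact h2
    -- α' p - α p = α' β X a - α β' X b
    have h2 : (α' - α) • p = (α' * β) • X a - (α * β') • X b := by
      have h3 : α' • p = (α' * α) • x e + (α' * β) • X a := by
        conv_lhs => rw [← hαβ]
        rw [smul_add, smul_smul, smul_smul]
      have h4 : α • p = (α' * α) • x e + (α * β') • X b := by
        conv_lhs => rw [← hαβ']
        rw [smul_add, smul_smul, smul_smul, mul_comm α α']
      rw [sub_smul, h3, h4]
      abel
    by_cases hαα : α' - α = 0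
    · have h3 : α' = α := sub_eq_zero.1 hαα
      have h4 : β' = β := by
        have : α + β' = α + β := by rw [h1, ← h3, h1']
        exact add_left_cancel this
      rw [h3, h4, sub_self, zero_smul] at h2
      by_cases hα0 : α = 0
      · apply hpX a
        rw [← hαβ, hα0, zero_smul, zero_add]
        exact Submodule.smul_mem _ _ (Submodule.mem_span_singleton_self _)
      · have h5 : (α * β) • X a = (α * β) • X b := (sub_eq_zero.1 h2.symm)
        exact hXne a b hab (smul_right_injective _ (mul_ne_zero hα0 hβ) h5)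
    · apply hpXX a b hab
      have h3 : p = (α' - α)⁻¹ • ((α' * β) • X a - (α * β') • X b) := by
        rw [← h2, smul_smul, inv_mul_cancel₀ hαα, one_smul]
      rw [h3]
      refine Submodule.smul_mem _ _ (sub_mem (Submodule.smul_mem _ _ (Submodule.subset_span ?_))
        (Submodule.smul_mem _ _ (Submodule.subset_span ?_)))
      · simp
      · simp
  -- a good shift
  have hs0 : NeZero s := ⟨fun h => by
    subst h
    exact e0.elim0⟩
  obtain ⟨g, hg⟩ : ∃ g : Fin s, ∀ e, e ≠ e0 → p ∉ Submodule.span Ω {x e, X (e + g)} := by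
    by_contra hcon2
    push Not at hcon2
    choose e' he' hpe' using hcon2
    have hinj : Function.Injective e' := by
      intro g1 g2 h12
      have h3 := hbad (e' g1) (he' g1) (e' g1 + g1) (e' g1 + g2) (hpe' g1) (by
        rw [h12]
        exact hpe' g2)
      exact add_left_cancel h3
    have hsurj : Function.Surjective e' := Finite.surjective_of_injective hinj
    obtain ⟨g, hg⟩ := hsurj e0
    exact he' g hg
  -- the forms
  have hform : ∀ e : Fin s, ∃ h : Fin (n + 1) → Ω, ∑ j, h j * p j ≠ 0 ∧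
      ∑ j, h j * X (e + g) j = 0 ∧ (e ≠ e0 → ∑ j, h j * x e j = 0) := by
    intro e
    by_cases he : e = e0
    · obtain ⟨h, h1, h2⟩ := exists_form (hpX (e + g))
      exact ⟨h, h1, h2 _ (Submodule.mem_span_singleton_self _), fun h => absurd he h⟩
    · obtain ⟨h, h1, h2⟩ := exists_form (hg e he)
      exact ⟨h, h1, h2 _ (Submodule.subset_span (by simp)), fun _ =>
        h2 _ (Submodule.subset_span (by simp))⟩
  choose h hh1 hh2 hh3 using hform
  obtain ⟨hf, hhf⟩ : ∃ hf : Fin D → Fin (n + 1) → Ω, ∀ i, hf i =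
    if hi : (i : ℕ) < s then h ⟨i, hi⟩ else Pi.single l0 1 := ⟨_, fun _ => rfl⟩
  have hslot : ∀ e : Fin s, hf ⟨e, e.2.trans_le hsD⟩ = h e := fun e => by
    rw [hhf, dif_pos e.2]
  have hfin := hmain hf
  rw [Finset.sum_eq_single e0, Finset.sum_eq_zero] at hfin
  · refine mul_ne_zero (hΘ e0) (Finset.prod_ne_zero_iff.2 fun i _ => ?_) hfin
    rw [hhf]
    split_ifs with hi
    · rw [← hp]
      exact hh1 _
    · rw [Finset.sum_eq_single l0]
      · rw [Pi.single_eq_same, one_mul, hl]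
        exact one_ne_zero
      · intro j _ hj
        rw [Pi.single_eq_of_ne hj, zero_mul]
      · intro h; exact absurd (Finset.mem_univ l0) h
  · intro a _
    refine mul_eq_zero_of_right _ (Finset.prod_eq_zero (Finset.mem_univ
      ⟨(a - g : Fin s), (a - g : Fin s).2.trans_le hsD⟩) ?_)
    rw [hslot]
    have h1 := hh2 (a - g)
    rwa [sub_add_cancel] at h1
  · intro e _ he
    refine mul_eq_zero_of_right _ (Finset.prod_eq_zero (Finset.mem_univ
      ⟨e, e.2.trans_le hsD⟩) ?_)
    rw [hslot]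
    exact hh3 e he
  · intro h
    exact absurd (Finset.mem_univ e0) h

end Pool.Agent.Y735.R2
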