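import Pool.Agent.Y735.R.Theta
import Pool.Agent.Y735.R.Trace
import Pool.Agent.Y735.R.HeightsR
import Pool.Agent.Y735.R2.Dec
import Pool.Agent.Y735.R2.Const

/-!
The traces of the products with the coordinates; constant points.
-/

set_option autoImplicit false

open MvPolynomial FF Pool.Agent.W603.LV Pool.Agent.W603.PV Pool.Agent.TH145.GH
open Pool.Agent.TH145.MG (DimLE)
open Pool.Agent.TH145
open Pool.Agent.Y735.R (trace_ge hgt_le_of_ge theta_ext)

namespace Pool.Agent.Y735.R2

theorem ge_prod {k L ι : Type} [Field k] [Field L] [Algebra k L] (P : Place k L) (s : Finset ι)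
    (g : ι → L) (a : ι → ℤ) (h : ∀ i ∈ s, Ge P (a i) (g i)) :
    Ge P (∑ i ∈ s, a i) (∏ i ∈ s, g i) := by
  classical
  induction s using Finset.induction_on with
  | empty =>
    simp only [Finset.sum_empty, Finset.prod_empty]
    exact Ge.one
  | insert i s hi ih =>
    rw [Finset.sum_insert hi, Finset.prod_insert hi]
    exact (h i (Finset.mem_insert_self i s)).mul
      (ih fun j hj => h j (Finset.mem_insert_of_mem hj))

theorem pord_nonpos {k L : Type} [Field k] [Field L] [Algebra k L] {n : ℕ} {x : Fin (n + 1) → L}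
    {l0 : Fin (n + 1)} (hl : x l0 = 1) (P : Place k L) : pord P x ≤ 0 := by
  have h1 : x l0 ≠ 0 := by rw [hl]; exact one_ne_zero
  have h2 := pord_le P h1
  rwa [hl, P.ord_one] at h2

theorem ge_coord {k L : Type} [Field k] [Field L] [Algebra k L] {n : ℕ} (x : Fin (n + 1) → L)
    (P : Place k L) (j : Fin (n + 1)) : Ge P (pord P x) (x j) := by
  by_cases hj : x j = 0
  · exact Or.inl hj
  · exact Or.inr (pord_le P hj)

/-- The traces of the products with the coordinates. -/
theorem trace_bound {κ F L : Type} [Field κ] [Field F] [Field L] [IsAlgClosed κ]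
    [CharZero κ] [Algebra κ F] [IsFF κ F] [Algebra κ L] [Algebra F L] [IsScalarTower κ F L]
    [FiniteDimensional F L] [IsFF κ L] {n m s : ℕ} {x : Fin (n + 1) → L} {l0 : Fin (n + 1)}
    (hl : x l0 = 1) {Θ : L} {c : ℤ} (hsc : (s : ℤ) ≤ c) {q : Place κ F → ℤ}
    (hΘ : ∀ P : Place κ L, -c * pord P x -
      (((ram F P : ℤ) - 1) + (m + 3) * (ram F P * q (under F P))) ≤ P.ord Θ)
    (f : Fin s → Fin (n + 1)) (v : Place κ F) :
    Ge v (-((m + 3) * q v)) (Algebra.trace F L (Θ * ∏ i, x (f i))) := by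
  refine trace_ge (b := fun v => (m + 3) * q v) (fun P => ?_) v
  have h1 : Ge P (P.ord Θ) Θ := Or.inr le_rfl
  have h2 := ge_prod P Finset.univ (fun i => x (f i)) (fun _ : Fin s => pord P x)
    (fun i _ => ge_coord x P (f i))
  rw [Finset.sum_const, Finset.card_univ, Fintype.card_fin, nsmul_eq_mul] at h2
  refine (h1.mul h2).mono ?_
  have h3 := hΘ P
  have h4 := pord_nonpos hl P
  have h5 : (c - s) * pord P x ≤ 0 := mul_nonpos_of_nonneg_of_nonpos (by omega) h4
  have h6 : (ram F P : ℤ) * ((m + 3) * q (under F P)) = (m + 3) * (ram F P * q (under F P)) := by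
    ring
  rw [h6]
  linarith

/-- The embeddings. -/
theorem exists_enum {F L Ω : Type} [Field F] [Field L] [Field Ω] [CharZero F] [IsAlgClosed Ω]
    [Algebra F L] [Algebra F Ω] [Algebra L Ω] [IsScalarTower F L Ω] [FiniteDimensional F L]
    {n s : ℕ} (hs : Module.finrank F L = s) (x : Fin (n + 1) → L)
    (hgen : IntermediateField.adjoin F (Set.range x) = ⊤) (e0 : Fin s) :
    ∃ ε : Fin s → (L →ₐ[F] Ω), Function.Injective (fun e j => ε e (x j)) ∧
      (∀ y, algebraMap F Ω (Algebra.trace F L y) = ∑ e, ε e y) ∧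
      ∀ y, ε e0 y = algebraMap L Ω y := by
  classical
  have hcard : Fintype.card (L →ₐ[F] Ω) = s := by rw [AlgHom.card, hs]
  obtain ⟨ε'⟩ : Nonempty (Fin s ≃ (L →ₐ[F] Ω)) :=
    Fintype.card_eq.1 (by rw [Fintype.card_fin, hcard])
  obtain ⟨ε, hε⟩ : ∃ ε : Fin s ≃ (L →ₐ[F] Ω), ε =
    (Equiv.swap e0 (ε'.symm (IsScalarTower.toAlgHom F L Ω))).trans ε' := ⟨_, rfl⟩
  refine ⟨ε, ?_, fun y => ?_, fun y => ?_⟩
  · intro a b hab
    apply ε.injective
    have h1 : ∀ j, ε a (x j) = ε b (x j) := fun j => congrFun hab j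
    have h3 : (⊤ : IntermediateField F L) ≤ IntermediateField.adjoin F (Set.range x) := hgen.ge
    ext y
    have h4 : y ∈ IntermediateField.adjoin F (Set.range x) := h3 trivial
    induction h4 using IntermediateField.adjoin_induction with
    | mem y hy =>
      obtain ⟨j, rfl⟩ := hy
      exact h1 j
    | algebraMap c => rw [AlgHom.commutes, AlgHom.commutes]
    | add a b _ _ ha hb => rw [map_add, map_add, ha, hb]
    | inv a _ ha => rw [map_inv₀, map_inv₀, ha]
    | mul a b _ _ ha hb => rw [map_mul, map_mul, ha, hb]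
  · rw [trace_eq_sum_embeddings Ω]
    exact (Equiv.sum_comp ε fun σ => σ y).symm
  · rw [hε, Equiv.trans_apply, Equiv.swap_apply_left, Equiv.apply_symm_apply]
    rfl

/-- **Points of bounded degree over a function field are constant, if there is no loss.** -/
theorem const_ext {k0 E κ F L Ω : Type} [Field k0] [Field E] [Field κ] [Field F] [Field L]
    [Field Ω] [IsAlgClosed κ] [CharZero κ] [Algebra κ F] [IsFF κ F] [Algebra κ L] [Algebra F L]
    [IsScalarTower κ F L] [FiniteDimensional F L] [IsFF κ L] [IsAlgClosed Ω] [Algebra F Ω]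
    [Algebra L Ω] [IsScalarTower F L Ω] [Algebra κ Ω] [IsScalarTower κ F Ω]
    [IsScalarTower κ L Ω] (ψ : k0 →+* E) (ρ : E →+* κ) {n m r : ℕ} {A : Type} [Fintype A]
    {dg : A → ℕ} {G : A → MvPolynomial (Fin (n + 1)) E}
    {D : A → (Fin (n + 1) →₀ ℕ) → Derivation ℤ F F}
    (hdat : GC.Data κ (fun a => map ((algebraMap κ F).comp ρ) (G a)) dg D fun _ => 0)
    (hDk : ∀ a I (r : k0), D a I (algebraMap κ F (ρ (ψ r))) = 0)
    (hSem : ∀ a I, Sem κ (D a I)) (V : Set (MvPolynomial (Fin (n + 1)) k0)) (hV : DimLE k0 V m)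
    (hd : 2 * m + 1 + r ≤ ∑ a, (dg a + 1)) (hr : Module.finrank F L ≤ r)
    {x : Fin (n + 1) → L} {l0 : Fin (n + 1)} (hNL : NoLine ψ V G l0) (hl : x l0 = 1)
    (hgen : IntermediateField.adjoin F (Set.range x) = ⊤)
    (hxV : ∀ f ∈ V, eval₂ ((algebraMap κ L).comp (ρ.comp ψ)) x f = 0)
    (hxG : ∀ a, eval₂ ((algebraMap κ L).comp ρ) x (G a) = 0) (j : Fin (n + 1)) :
    x j ∈ Set.range (algebraMap κ L) := by
  classical
  have hF : CharZero F := charZero_of_injective_algebraMap (algebraMap κ F).injective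
  have hx0 : x ≠ 0 := by
    rintro rfl
    exact zero_ne_one hl
  have hκL : (algebraMap F L).comp (algebraMap κ F) = algebraMap κ L :=
    (IsScalarTower.algebraMap_eq κ F L).symm
  have hκΩ : (algebraMap L Ω).comp (algebraMap κ L) = algebraMap κ Ω :=
    (IsScalarTower.algebraMap_eq κ L Ω).symm
  obtain ⟨Θ, hΘ0, c, hc, hΘ⟩ := theta_ext (κ := κ) (F := F) (L := L)
    ((algebraMap κ F).comp (ρ.comp ψ)) hdat hDk hSem V hV hx0
    (fun f hf => by
      have h1 := hxV f hf
      rw [← hκL] at h1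
      exact h1)
    (fun a => by
      have h1 := hxG a
      rw [← hκL] at h1
      rw [eval_map, eval₂_map]
      exact h1)
  obtain ⟨s, hs⟩ : ∃ s, s = Module.finrank F L := ⟨_, rfl⟩
  have hs0 : 0 < s := by rw [hs]; exact Module.finrank_pos
  have hsc : (s : ℤ) ≤ c := by
    have h5 : ((2 * m + 1 + r : ℕ) : ℤ) ≤ ((∑ a, (dg a + 1) : ℕ) : ℤ) := by exact_mod_cast hd
    have h6 : (s : ℤ) ≤ r := by rw [hs]; exact_mod_cast hr
    push_cast at h5
    linarith
  obtain ⟨ε, hεi, hεt, hε0⟩ := exists_enum (Ω := Ω) hs.symm x hgen ⟨0, hs0⟩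
  have H : ∀ f : Fin s → Fin (n + 1), ∃ c : κ, ∑ e, ε e Θ * ∏ i, ε e (x (f i)) =
      algebraMap κ Ω c := by
    intro f
    have h1 : ∀ v : Place κ F, Ge v (-0) (Algebra.trace F L (Θ * ∏ i, x (f i))) := by
      intro v
      have h2 := trace_bound (q := fun _ : Place κ F => 0) hl hsc hΘ f v
      rwa [mul_zero] at h2
    have h2 := hgt_le_of_ge (k := κ) (b := fun _ => 0) (fun _ => le_rfl) (by simp) h1
    rw [finsum_zero] at h2
    obtain ⟨c, hc⟩ := const_of_hgt h2
    refine ⟨c, ?_⟩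
    rw [IsScalarTower.algebraMap_apply κ F Ω, ← hc, hεt]
    exact Finset.sum_congr rfl fun e _ => by rw [map_mul, map_prod]
  obtain ⟨u, u', t, hu, hu', hxu⟩ := dec le_rfl (fun e j => ε e (x j)) hεi (l0 := l0)
    (fun e => by rw [hl, map_one]) (fun e => ε e Θ)
    (fun e => (map_ne_zero_iff _ (ε e).injective).2 hΘ0) H ⟨0, hs0⟩
  have h1 := const_pt (Ω := Ω) (x := fun j => algebraMap L Ω (x j)) hNL ρ
    (fun f hf => by
      have h2 := hom_eval₂ f ((algebraMap κ L).comp (ρ.comp ψ)) (algebraMap L Ω) x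
      rw [hxV f hf, map_zero, ← RingHom.comp_assoc, hκΩ] at h2
      exact h2.symm)
    (fun a => by
      have h2 := hom_eval₂ (G a) ((algebraMap κ L).comp ρ) (algebraMap L Ω) x
      rw [hxG a, map_zero, ← RingHom.comp_assoc, hκΩ] at h2
      exact h2.symm)
    hu hu' (t := t) (fun j => by rw [← hxu j]; exact (hε0 (x j)).symm) j
  obtain ⟨b, hb⟩ := h1
  refine ⟨b, (algebraMap L Ω).injective ?_⟩
  rw [← IsScalarTower.algebraMap_apply]
  exact hb

end Pool.Agent.Y735.R2
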