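import Pool.Agent.Y735.R.MainR
import Pool.Agent.Y735.R2.Const

/-!
There are no lines on the generic complete intersections.
-/

set_option autoImplicit false

open MvPolynomial Pool.Agent.TH145.GH
open Pool.Agent.TH145
open Pool.Agent.TH145.MG (DimLE)

namespace Pool.Agent.Y735.R2

/-- There are no lines on the generic complete intersections. -/
theorem noLine {k0 E : Type} [Field k0] [IsAlgClosed k0] [Field E] [Algebra k0 E]
    {n m : ℕ} {A : Type} [Fintype A] {dg : A → ℕ} (hd : 2 * m + 2 ≤ ∑ a, (dg a + 1))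
    (V : Set (MvPolynomial (Fin (n + 1)) k0)) (hV : DimLE k0 V m)
    {F : A → MvPolynomial (Fin (n + 1)) E} (hF : ∀ a, (F a).IsHomogeneous (dg a))
    (hind : AlgebraicIndependent k0 fun p : GC.Cf n dg => (F p.1).coeff p.2.1)
    (l0 : Fin (n + 1)) : NoLine (algebraMap k0 E) V F l0 := by
  classical
  intro κ _ _ _ ρ u u' hu hu' H
  by_contra hne
  let _ : Algebra k0 κ := (ρ.comp (algebraMap k0 E)).toAlgebra
  let ρ' : E →ₐ[k0] κ := { ρ with commutes' := fun _ => rfl }
  have hind' : AlgebraicIndependent k0 fun p : GC.Cf n dg => (map ρ (F p.1)).coeff p.2.1 := by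
    have h1 := hind.map' (f := ρ') ρ'.toRingHom.injective
    have h2 : (fun p : GC.Cf n dg => (map ρ (F p.1)).coeff p.2.1) =
        ρ' ∘ fun p : GC.Cf n dg => (F p.1).coeff p.2.1 := by
      funext p
      rw [coeff_map]
      rfl
    rw [h2]
    exact h1
  obtain ⟨T, hT⟩ : ∃ T : Finset κ, T = Finset.univ.image u ∪ Finset.univ.image u' := ⟨_, rfl⟩
  have hfin := Pool.Agent.Y735.R.fin_points_alg (k0 := k0) (K := κ) (r := 1) (by omega) V hV
    (F := fun a => map ρ (F a)) (fun a => (hF a).map ρ) hind' T l0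
  have hinj : Function.Injective fun τ : ℕ => fun j => u j + (τ : κ) * u' j := by
    intro a b hab
    obtain ⟨j, hj⟩ := Function.ne_iff.1 hne
    have h1 := congrFun hab j
    have h2 : ((a : κ) - b) * u' j = 0 := by
      have h3 : u j + (a : κ) * u' j = u j + (b : κ) * u' j := h1
      linear_combination h3
    have h3 := (mul_eq_zero.1 h2).resolve_right hj
    exact_mod_cast sub_eq_zero.1 h3
  refine Set.infinite_of_injective_forall_mem hinj (fun τ => ?_) hfin
  refine ⟨?_, fun f hf => (H τ).1 f hf, fun a => ?_, ⊥, inferInstance, ?_, fun j => ?_⟩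
  · dsimp only
    rw [hu, hu', mul_zero, add_zero]
  · rw [eval_map]
    exact (H τ).2 a
  · exact (IntermediateField.finrank_bot).le
  · have hmem : ∀ z ∈ (T : Set κ), z ∈ (⊥ : IntermediateField
        (IntermediateField.adjoin k0 (T : Set κ)) κ) := fun z hz =>
      (⊥ : IntermediateField (IntermediateField.adjoin k0 (T : Set κ)) κ).algebraMap_mem
        ⟨z, IntermediateField.subset_adjoin _ _ hz⟩
    have h1 : u j ∈ (T : Set κ) := by
      rw [hT]
      simp
    have h2 : u' j ∈ (T : Set κ) := by
      rw [hT]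
      simp
    exact add_mem (hmem _ h1) (mul_mem (natCast_mem _ τ) (hmem _ h2))

end Pool.Agent.Y735.R2
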